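import Pool.Agent.V11230.CP3

/-!
# Foremost coverage of periodic temporal trees of maximum degree 3 is NP-hard

A reduction from 3SAT to caterpillars of maximum degree 3, with the period in the input.  The edges
of the spine are always present, and the edge of the leaf `i` is present only at the times `F c`,
where `c` is a label of the leaf and `F` exceeds the length of the spine.  So the agent visits a
leaf from one of its labels to a later one.  The leaf of a variable has three labels; between the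
first two of them, and between the last two, there are slots for the leaves of the clauses.  One
leaf is present only once in the period, at the end.
-/

set_option autoImplicit false

namespace Pool.Agent.NPC.V11230.CP

open Pool.Agent.NPC Pool.Agent.NPC.V11230.DS

/-! ### Polynomial time -/

section

variable {α : Type} [TEnc α]

theorem q_inC {c : α → Cl} {l : α → Lit ℕ} (hc : Poly c) (hl : Poly l) :
    Poly (fun a => inC (c a) (l a)) := by
  unfold inC
  exact Poly.or (Poly.or (Poly.decide_eq (Poly.fst hc) hl)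
    (Poly.decide_eq (Poly.fst (Poly.snd hc)) hl)) (Poly.decide_eq (Poly.snd (Poly.snd hc)) hl)

theorem q_k {u : α → ℕ} (hu : Poly u) (k m : ℕ) : Poly (fun a => k * u a + m) :=
  Poly.add (Poly.mul (Poly.const k) hu) (Poly.const m)

theorem q_k0 {u : α → ℕ} (hu : Poly u) (k : ℕ) : Poly (fun a => k * u a) :=
  Poly.mul (Poly.const k) hu

variable {L x c : α → ℕ}

theorem poly_labX (hL : Poly L) (hx : Poly x) (hc : Poly c) :
    Poly (fun a => labX (L a) (x a) (c a)) := by
  have hm := Poly.mod hc (q_k hL 4 3)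
  unfold labX
  exact Poly.and (Poly.decide_eq (Poly.div hc (q_k hL 4 3)) hx)
    (Poly.or (Poly.or (Poly.decide_eq hm (Poly.const 0)) (Poly.decide_eq hm (q_k hL 2 1)))
      (Poly.decide_eq hm (q_k hL 4 2)))

theorem poly_labC {cl : α → Cl} {j : α → ℕ} (hcl : Poly cl) (hL : Poly L) (hj : Poly j)
    (hc : Poly c) : Poly (fun a => labC (cl a) (L a) (j a) (c a)) := by
  have hm := Poly.mod hc (q_k hL 4 3)
  have hd := Poly.div hc (q_k hL 4 3)
  unfold labC
  exact Poly.or
    (Poly.and (Poly.and (Poly.and (Poly.decide_le (Poly.const 1) hm)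
      (Poly.decide_le hm (q_k0 hL 2)))
      (Poly.decide_eq (Poly.div (Poly.sub hm (Poly.const 1)) (Poly.const 2)) hj))
      (q_inC hcl (Poly.pair (Poly.const false) hd)))
    (Poly.and (Poly.and (Poly.and (Poly.decide_le (q_k hL 2 2) hm)
      (Poly.decide_le hm (q_k hL 4 1)))
      (Poly.decide_eq (Poly.div (Poly.sub hm (q_k hL 2 2)) (Poly.const 2)) hj))
      (q_inC hcl (Poly.pair (Poly.const true) hd)))

theorem poly_lab {φ : α → List Cl} {i : α → ℕ} (hφ : Poly φ) (hi : Poly i) (hc : Poly c) :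
    Poly (fun a => lab (φ a) (i a) (c a)) := by
  have hL : Poly (fun a => (φ a).length) := Poly.length hφ
  have hj := Poly.sub hi (q_k0 hL 3)
  unfold lab
  exact Poly.ite (Poly.decide_lt hi (q_k0 hL 3)) (poly_labX hL hi hc)
    (Poly.ite (Poly.decide_lt hi (q_k0 hL 4))
      (poly_labC (Poly.getD hφ hj (Poly.const dcl)) hL hj hc)
      (Poly.decide_eq hc (Poly.mul (q_k0 hL 3) (q_k hL 4 3))))

theorem poly_edgeAt {lb : α → ℕ → ℕ → Bool} {m F t u v : α → ℕ}
    (hpu : Poly (fun a => pres (lb a) (F a) (u a) (t a)))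
    (hpv : Poly (fun a => pres (lb a) (F a) (v a) (t a))) (hm : Poly m) (hu : Poly u)
    (hv : Poly v) : Poly (fun a => edgeAt (lb a) (m a) (F a) (t a) (u a) (v a)) := by
  have h1 := Poly.decide_lt hu hm
  have h2 := Poly.decide_lt hv hm
  unfold edgeAt
  exact Poly.or (Poly.or
    (Poly.and (Poly.and h1 h2) (Poly.or (Poly.decide_eq (Poly.add hu (Poly.const 1)) hv)
      (Poly.decide_eq (Poly.add hv (Poly.const 1)) hu)))
    (Poly.and (Poly.and h1 (Poly.decide_eq hv (Poly.add hm hu))) hpu))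
    (Poly.and (Poly.and h2 (Poly.decide_eq hu (Poly.add hm hv))) hpv)

theorem poly_pres {φ : α → List Cl} {F i t : α → ℕ} (hφ : Poly φ) (hF : Poly F) (hi : Poly i)
    (ht : Poly t) : Poly (fun a => pres (lab (φ a)) (F a) (i a) (t a)) := by
  unfold pres
  exact Poly.and (Poly.decide_eq (Poly.mod ht hF) (Poly.const 0))
    (poly_lab hφ hi (Poly.div ht hF))

theorem poly_tabM {n : α → ℕ} {f : α → ℕ → ℕ → Bool} (hn : UPoly n)
    (hf : Poly (fun p : (α × ℕ) × ℕ => f p.1.1 p.1.2 p.2)) : Poly (fun a => tabM (n a) (f a)) := by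
  unfold tabM
  refine Poly.map (F := fun (a : α) (i : ℕ) => (List.range (n a)).map (fun j => f a i j))
    (UPoly.range hn) ?_
  exact Poly.map (F := fun (p : α × ℕ) (j : ℕ) => f p.1 p.2 j)
    ((UPoly.range hn).comp (Poly.fst Poly.id)) hf

end

theorem uk (k m : ℕ) : UPoly (fun φ : List Cl => k * φ.length + m) :=
  UPoly.add (UPoly.mul (UPoly.const k) (UPoly.length Poly.id)) (UPoly.const m)

theorem uT : UPoly (fun φ : List Cl => 3 * φ.length * (4 * φ.length + 3)) :=
  UPoly.mul (UPoly.mul (UPoly.const 3) (UPoly.length Poly.id)) (uk 4 3)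

theorem uN : UPoly (fun φ : List Cl => 2 * (4 * φ.length + 1)) :=
  UPoly.mul (UPoly.const 2) (uk 4 1)

theorem pres_const (i : ℕ) : pres (fun _ _ => true) 1 i 0 = true := by simp [pres]

theorem poly_treeE : Poly (fun w : (List Cl × ℕ) × ℕ => treeE (4 * w.1.1.length + 1) w.1.2 w.2) := by
  have ha : Poly (fun w : (List Cl × ℕ) × ℕ => w.1.1) := Poly.fst (Poly.fst Poly.id)
  have hi : Poly (fun w : (List Cl × ℕ) × ℕ => w.1.2) := Poly.snd (Poly.fst Poly.id)
  have hj : Poly (fun w : (List Cl × ℕ) × ℕ => w.2) := Poly.snd Poly.id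
  have hm : Poly (fun w : (List Cl × ℕ) × ℕ => 4 * w.1.1.length + 1) :=
    q_k (Poly.length ha) 4 1
  have hpu : Poly (fun w : (List Cl × ℕ) × ℕ => pres (fun _ _ => true) 1 w.1.2 0) :=
    (Poly.const true).congr fun a => (pres_const _).symm
  have hpv : Poly (fun w : (List Cl × ℕ) × ℕ => pres (fun _ _ => true) 1 w.2 0) :=
    (Poly.const true).congr fun a => (pres_const _).symm
  have := poly_edgeAt (lb := fun _ _ _ => true) (F := fun _ => 1) (t := fun _ => 0)
    (m := fun w : (List Cl × ℕ) × ℕ => 4 * w.1.1.length + 1) (u := fun w => w.1.2)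
    (v := fun w => w.2) hpu hpv hm hi hj
  exact this

theorem poly_tree : Poly (fun φ : List Cl => tabM (2 * (4 * φ.length + 1))
    (treeE (4 * φ.length + 1))) :=
  poly_tabM (n := fun φ : List Cl => 2 * (4 * φ.length + 1))
    (f := fun φ : List Cl => treeE (4 * φ.length + 1)) uN poly_treeE

/-- the snapshot at time `t` -/
def snapM (p : List Cl × ℕ) : Mat :=
  tabM (2 * (4 * p.1.length + 1)) (edgeAt (lab p.1) (4 * p.1.length + 1) (4 * p.1.length + 2) p.2)

/-- its entries -/
def snapE (w : ((List Cl × ℕ) × ℕ) × ℕ) : Bool :=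
  edgeAt (lab w.1.1.1) (4 * w.1.1.1.length + 1) (4 * w.1.1.1.length + 2) w.1.1.2 w.1.2 w.2

theorem xφ : Poly (fun w : ((List Cl × ℕ) × ℕ) × ℕ => w.1.1.1) :=
  Poly.fst (Poly.fst (Poly.fst Poly.id))

theorem xt : Poly (fun w : ((List Cl × ℕ) × ℕ) × ℕ => w.1.1.2) :=
  Poly.snd (Poly.fst (Poly.fst Poly.id))

theorem xi : Poly (fun w : ((List Cl × ℕ) × ℕ) × ℕ => w.1.2) := Poly.snd (Poly.fst Poly.id)

theorem xj : Poly (fun w : ((List Cl × ℕ) × ℕ) × ℕ => w.2) := Poly.snd Poly.id

theorem poly_presU {F : ((List Cl × ℕ) × ℕ) × ℕ → ℕ} (hF : Poly F) :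
    Poly (fun w => pres (lab w.1.1.1) (F w) w.1.2 w.1.1.2) := by
  have h : Poly (fun w => pres (lab w.1.1.1) (F w) w.1.2 w.1.1.2) :=
    poly_pres (α := ((List Cl × ℕ) × ℕ) × ℕ) (F := F) (φ := fun w => w.1.1.1)
      (i := fun w => w.1.2) (t := fun w => w.1.1.2) xφ hF xi xt
  exact h

theorem poly_presV {F : ((List Cl × ℕ) × ℕ) × ℕ → ℕ} (hF : Poly F) :
    Poly (fun w => pres (lab w.1.1.1) (F w) w.2 w.1.1.2) := by
  have h : Poly (fun w => pres (lab w.1.1.1) (F w) w.2 w.1.1.2) :=
    poly_pres (α := ((List Cl × ℕ) × ℕ) × ℕ) (F := F) (φ := fun w => w.1.1.1)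
      (i := fun w => w.2) (t := fun w => w.1.1.2) xφ hF xj xt
  exact h

theorem poly_snapE' {m F : ((List Cl × ℕ) × ℕ) × ℕ → ℕ} (hm : Poly m) (hF : Poly F) :
    Poly (fun w => edgeAt (lab w.1.1.1) (m w) (F w) w.1.1.2 w.1.2 w.2) := by
  have h : Poly (fun w => edgeAt (lab w.1.1.1) (m w) (F w) w.1.1.2 w.1.2 w.2) :=
    poly_edgeAt (α := ((List Cl × ℕ) × ℕ) × ℕ) (lb := fun w => lab w.1.1.1) (F := F)
      (t := fun w => w.1.1.2) (m := m) (u := fun w => w.1.2)
      (v := fun w => w.2) (poly_presU hF) (poly_presV hF) hm xi xj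
  exact h

theorem poly_snapE : Poly snapE := by
  have h := poly_snapE' (m := fun w => 4 * w.1.1.1.length + 1)
    (F := fun w => 4 * w.1.1.1.length + 2) (q_k (Poly.length xφ) 4 1) (q_k (Poly.length xφ) 4 2)
  exact h

theorem uN' : UPoly (fun p : List Cl × ℕ => 2 * (4 * p.1.length + 1)) :=
  UPoly.mul (UPoly.const 2) (UPoly.add (UPoly.mul (UPoly.const 4)
    (UPoly.length (Poly.fst Poly.id))) (UPoly.const 1))

theorem poly_snapM : Poly snapM :=
  poly_tabM (n := fun p : List Cl × ℕ => 2 * (4 * p.1.length + 1))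
    (f := fun (p : List Cl × ℕ) (i j : ℕ) => snapE ((p, i), j)) uN' poly_snapE

theorem uP : UPoly (fun φ : List Cl =>
    (4 * φ.length + 2) * (3 * φ.length * (4 * φ.length + 3) + 1)) :=
  UPoly.mul (uk 4 2) (UPoly.add uT (UPoly.const 1))

theorem poly_snaps : Poly (fun φ : List Cl =>
    (List.range ((4 * φ.length + 2) * (3 * φ.length * (4 * φ.length + 3) + 1))).map (fun t =>
      snapM (φ, t))) :=
  Poly.map (F := fun (φ : List Cl) (t : ℕ) => snapM (φ, t)) (UPoly.range uP) poly_snapM

theorem poly_inst : Poly inst :=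
  Poly.pair poly_tree (Poly.pair (Poly.const 0) poly_snaps)

theorem poly_bound : Poly bound := by
  have hL : Poly (fun φ : List Cl => φ.length) := Poly.length Poly.id
  unfold bound
  exact Poly.add (Poly.mul (q_k hL 4 2) (Poly.mul (q_k0 hL 3) (q_k hL 4 3))) (Poly.const 1)

/-- the decision problem -/
def Dec (q : Inst × ℕ) : Prop := Covers q.1 q.2

theorem hardPr_dec : HardPr (fun q : Inst × ℕ => Valid 3 q.1) Dec :=
  hardPr_SAT3b.trans (f := fun φ => (inst φ, bound φ)) (Poly.pair poly_inst poly_bound)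
    (fun _ h => valid_inst h.2.1 h.2.2) (fun _ h => sat_iff h.2.1 h.2.2)

theorem covers_mono {I : Inst} {t t' : ℕ} (h : t ≤ t') (hc : Covers I t) : Covers I t' := by
  obtain ⟨pos, h0, h1, h2⟩ := hc
  refine ⟨fun τ => pos (min τ t), ?_, ?_, ?_⟩
  · simpa using h0
  · intro τ _
    by_cases hlt : τ < t
    · have e1 : min (τ + 1) t = τ + 1 := by omega
      have e2 : min τ t = τ := by omega
      simp only [e1, e2]
      exact h1 τ hlt
    · have e1 : min (τ + 1) t = t := by omega
      have e2 : min τ t = t := by omega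
      simp only [e1, e2]
      exact Or.inl trivial
  · intro v hv
    obtain ⟨τ, hτ, he⟩ := h2 v hv
    refine ⟨τ, by omega, ?_⟩
    have e2 : min τ t = τ := by omega
    simp only [e2]
    exact he

/-- compare the output of an algorithm with the bound -/
def test (A : List Bool → List Bool) (q : Inst × ℕ) : Bool :=
  match unbits ℕ (A (bits q.1)) with
  | none => false
  | some m => decide (m ≤ q.2)

theorem poly_test {A : List Bool → List Bool} (hA : PolyTime A) : Poly (test A) := by
  have h1 : PC (fun x : List Bool => x) (fun x : List Bool => x) A :=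
    H642R2.TMSim.polyTime_toPC hA
  have h2 : PC (bits : Inst × ℕ → List Bool) (fun x : List Bool => x) (fun q => bits q.1) :=
    (Poly.fst Poly.id : Poly (fun q : Inst × ℕ => q.1))
  have h3 : PC (bits : Inst × ℕ → List Bool) (fun x : List Bool => x) (fun q => A (bits q.1)) :=
    PC.comp h1 h2
  have h4 : Poly (fun q : Inst × ℕ => A (bits q.1)) := PC.comp (g := fun x => x) PC.rawIn h3
  have h5 : Poly (fun q : Inst × ℕ => unbits ℕ (A (bits q.1))) := poly_unbits.comp h4
  refine (Poly.optCases (o := fun q : Inst × ℕ => unbits ℕ (A (bits q.1))) (g := fun _ => false)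
    (h := fun q m => decide (m ≤ q.2)) h5 (Poly.const _)
    (Poly.decide_le (Poly.snd Poly.id) (Poly.snd (Poly.fst Poly.id)))).congr fun q => ?_
  unfold test
  cases unbits ℕ (A (bits q.1)) <;> rfl

end Pool.Agent.NPC.V11230.CP

namespace Pool.Agent.Results.MP_ce2681_lc.PeriodInInput

open Pool.Agent.NPC Pool.Agent.NPC.V11230.CP

/-- **DMVP in the periodic class is NP-hard on trees of maximum degree 3**, with the period in the
input. -/
theorem result :
    (∀ L, InNP L → ∃ f : List Bool → Inst × ℕ, PolyTime (fun x => bits (f x)) ∧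
      ∀ x, Valid 3 (f x).1 ∧ (x ∈ L ↔ Covers (f x).1 (f x).2)) ∧
    (∀ A : List Bool → List Bool, PolyTime A →
      (∀ I, Valid 3 I → ∃ m : ℕ, A (bits I) = bits m ∧ IsLeast {t | Covers I t} m) →
      ∀ L, InNP L → InP L) := by
  refine ⟨?_, ?_⟩
  · intro L hL
    obtain ⟨f, hf, hpr, hfL⟩ := hardPr_dec L hL
    exact ⟨f, PC.toPolyTime hf, fun x => ⟨hpr x, hfL x⟩⟩
  · intro A hA h
    refine hardPr_dec.collapse (poly_test hA) (fun q hq => ?_)
    obtain ⟨m, hm, h1, h2⟩ := h q.1 hq
    unfold test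
    rw [hm, unbits_bits]
    simp only [decide_eq_true_eq]
    exact ⟨fun hc => h2 hc, fun hle => covers_mono hle h1⟩

end Pool.Agent.Results.MP_ce2681_lc.PeriodInInput
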